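import Pool.Agent.H7.GU.Stmts

/-! # Row FN8 of the board gu8 (helper12, after helper71): the theorem from SUM8, GLD0, TCT -/

set_option autoImplicit false

open Finset

namespace Pool.GU7

open Pool.Agent.H23.KT Pool.Agent.H46.KW Pool.KQ Pool.GT7

theorem FN8_thm (hSUM : SUM8Stmt) (hGLD : GLD0Stmt) (hTCT : TCTStmt) : FN8Stmt := by
  intro p w r hP
  have hP0 : Pr0 p w r := by
    have h2 := hP.wp
    have h3 := hP.r2
    have h4 := hP.rb
    constructor <;> omega
  obtain ⟨a₀, h0⟩ := hSUM p w r hP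
  refine ⟨max a₀ 1, ?_⟩
  intro a ha m H hdeg hcf
  have ha0 : a₀ ≤ a := le_trans (le_max_left _ _) ha
  have ha1 : 1 ≤ a := le_trans (le_max_right _ _) ha
  have hdeg' : ∀ v, (nb H univ v).card ≤ (p + 3) * a + r := by
    intro v
    have h1 : ((nb H univ v : Finset (Fin m)) : Set (Fin m)) = H.neighborSet v := by
      ext w
      rw [mem_coe, mem_nb, SimpleGraph.mem_neighborSet]
      simp
    rw [← Set.ncard_coe_finset, h1]
    exact hdeg v
  have hCB : CB H (univ : Finset (Fin m)) (p + 4) := by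
    intro S _ hS
    by_contra hlt
    push Not at hlt
    obtain ⟨S', hS', hc'⟩ := exists_subset_card_eq (show p + 5 ≤ S.card by omega)
    exact hcf S' ⟨hS.subset (by
      intro y hy
      exact mem_coe.2 (hS' (mem_coe.1 hy))), hc'⟩
  have h1 := hGLD H p w r a hP0 ha1 hCB hdeg' (h0 a ha0 H ⟨hCB, hdeg'⟩)
  rw [Fintype.card_fin] at h1
  rw [ncard_eq_kc]
  have h2 := hTCT p (w + 3) a r (by have := hP.rb; omega)
  exact le_trans h1 (Nat.mul_le_mul_right m h2)

end Pool.GU7
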